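import Mathlib
import Pool.Agent.W854.FA.Hall
import Pool.Agent.W854.FA.Final

set_option autoImplicit false

/-!
# Fixed `lam`: automorphisms of prime power order of symmetric designs fix an odd number of points
-/

namespace Pool.Agent.Results.MP_c38931_co.OddFixedPoints

open Filter Topology

/-- The blocks `B i` (`i : Fin v`) form a symmetric `2-(v, k, lam)` design on the points `Fin v`
with `2 ≤ k < v`. -/
structure IsSymmetricDesign (v k lam : ℕ) (B : Fin v → Finset (Fin v)) : Prop where
  two_le : 2 ≤ k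
  lt : k < v
  size : ∀ i, (B i).card = k
  pair : ∀ x y : Fin v, x ≠ y →
    (Finset.univ.filter (fun i => x ∈ B i ∧ y ∈ B i)).card = lam

/-- The permutation `σ` of the points maps every block to a block. -/
def IsAutomorphism {v : ℕ} (B : Fin v → Finset (Fin v)) (σ : Equiv.Perm (Fin v)) : Prop :=
  ∀ i, ∃ j, (B i).image σ = B j

/-- Let `lam ≥ 1`, `Q` and `0 < ε < 1` be given. The set of all `k` for which some symmetric
`2-(v, k, lam)` design has an automorphism `σ` whose order is a power of a prime `q`, where either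
`q` divides `v` and `q ≤ k ^ (1 - ε)`, or `q ≤ Q`, and which fixes an even number of points, has
natural density zero. -/
theorem result (lam : ℕ) (hlam : 1 ≤ lam) (Q : ℕ) (ε : ℝ) (hε : 0 < ε) (hε1 : ε < 1) :
    Tendsto (fun N : ℕ =>
      ({k : ℕ | k ≤ N ∧ ∃ (v : ℕ) (B : Fin v → Finset (Fin v)) (σ : Equiv.Perm (Fin v))
        (q a : ℕ), IsSymmetricDesign v k lam B ∧ IsAutomorphism B σ ∧ q.Prime ∧
          ((q ∣ v ∧ (q : ℝ) ≤ (k : ℝ) ^ (1 - ε)) ∨ q ≤ Q) ∧ orderOf σ = q ^ a ∧
          Even (Finset.univ.filter (fun x : Fin v => σ x = x)).card}.ncard : ℝ) / (N : ℝ))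
      atTop (𝓝 0) := by
  have h := Pool.Agent.W854.FA.small_tendsto (Pool.Agent.W854.FA.small_KE lam hlam Q ε hε hε1)
  refine squeeze_zero (fun N => by positivity) (fun N => ?_) h
  refine div_le_div_of_nonneg_right ?_ (Nat.cast_nonneg N)
  refine (Nat.cast_le (α := ℝ)).2 (Set.ncard_le_ncard ?_
    (Pool.Agent.H634R3.AA.fin_le N _))
  rintro k ⟨hk, v, B, σ, q, a, hd, haut, hq, hqv, hord, heven⟩
  exact ⟨hk, hd.two_le, v, B, σ, q, a, hd.lt, hd.size, hd.pair, haut, hq, hqv,
    by rw [← hord]; exact pow_orderOf_eq_one σ, heven⟩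

end Pool.Agent.Results.MP_c38931_co.OddFixedPoints
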