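import Mathlib
import Pool.Agent.W114.HL.Full
import Pool.Agent.W12.HL.DH

set_option autoImplicit false

/-!
# Symmetric designs with a solvable point-transitive automorphism group, fixed non-square `lam`
-/

namespace Pool.Agent.Results.MP_c38931_co.ReciprocalSum

/-- The blocks `B i` (`i : Fin v`) form a symmetric `2-(v, k, lam)` design on the points `Fin v`
with `2 ≤ k < v`, and `H` is a solvable group of automorphisms of the design acting transitively
on the points. -/
structure IsSolvableTransitiveDesign (v k lam : ℕ) (B : Fin v → Finset (Fin v))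
    (H : Subgroup (Equiv.Perm (Fin v))) : Prop where
  two_le : 2 ≤ k
  lt : k < v
  size : ∀ i, (B i).card = k
  pair : ∀ x y : Fin v, x ≠ y →
    (Finset.univ.filter (fun i => x ∈ B i ∧ y ∈ B i)).card = lam
  transitive : ∀ x y : Fin v, ∃ h ∈ H, h x = y
  aut : ∀ h ∈ H, ∀ i, ∃ j, (B i).image h = B j
  solvable : Group.IsSolvable H

/-- The block sizes of the symmetric `2-(v, k, lam)` designs (`v` arbitrary) with a solvable
point-transitive group of automorphisms. -/
def blockSizes (lam : ℕ) : Set ℕ :=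
  {k : ℕ | ∃ (v : ℕ) (B : Fin v → Finset (Fin v)) (H : Subgroup (Equiv.Perm (Fin v))),
    IsSolvableTransitiveDesign v k lam B H}

/-- Let `lam ≥ 2` be an integer which is not a perfect square. For every `ε > 0` there is `C` such that
for all `X ≥ 3` at most `C X (log X) ^ (ε - 9 / 8)` integers `k ≤ X` are block sizes of symmetric
`2-(v, k, lam)` designs having a solvable point-transitive group of automorphisms; in particular the
sum of `1 / k` over all these block sizes converges. -/
theorem result (lam : ℕ) (hlam : 2 ≤ lam) (hsq : ¬ IsSquare lam) :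
    (∀ ε : ℝ, 0 < ε → ∃ C : ℝ, 0 < C ∧ ∀ X : ℕ, 3 ≤ X →
      ({k : ℕ | k ≤ X ∧ k ∈ blockSizes lam}.ncard : ℝ) ≤ C * X * (Real.log X) ^ (ε - 9 / 8)) ∧
    Summable ((blockSizes lam).indicator (fun k : ℕ => 1 / (k : ℝ))) := by
  have h1 : ∀ ε : ℝ, 0 < ε → ∃ C : ℝ, 0 < C ∧ ∀ X : ℕ, 3 ≤ X →
      ({k : ℕ | k ≤ X ∧ k ∈ blockSizes lam}.ncard : ℝ) ≤
        C * X * (Real.log X) ^ (ε - 9 / 8) := by
    intro ε hε
    obtain ⟨C, hC, h⟩ := Pool.Agent.W114.HL.solv_app Pool.Agent.W114.HL.main (Pool.Agent.W12.HL.dh Pool.Agent.W114.HL.dm) hlam hsq ε hε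
    refine ⟨C, hC, fun X hX => le_trans ?_ (h X hX)⟩
    have hfin : {k : ℕ | k ≤ X ∧ ∃ (v : ℕ) (B : Fin v → Finset (Fin v))
          (H : Subgroup (Equiv.Perm (Fin v))), 2 ≤ k ∧
            Pool.Agent.H634R3.WG.Lam.TransDesign v k lam B H}.Finite :=
      (Set.finite_Iic X).subset fun n hn => hn.1
    exact_mod_cast Set.ncard_le_ncard (fun k hk => by
      obtain ⟨h1, v, B, H, hd⟩ := hk
      exact ⟨h1, v, B, H, hd.two_le, ⟨hd.lt, hd.size, hd.pair, hd.transitive, hd.aut,
        hd.solvable⟩⟩) hfin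
  refine ⟨h1, ?_⟩
  obtain ⟨C, -, h⟩ := h1 (1 / 16) (by norm_num)
  refine Pool.Agent.W114.HL.summable_of_count (C := C) (a := 17 / 16) (by norm_num) ?_
  intro X hX
  have h2 := h X hX
  norm_num at h2 ⊢
  exact h2

end Pool.Agent.Results.MP_c38931_co.ReciprocalSum
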